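import Pool.Agent.DFM.Stmts

/-! # Squad DFM, row PKG: the lattice `L(I,J,w)` -/

set_option autoImplicit false

namespace Pool.Agent.DFM.H64

open Pool.Agent.DFM

/-- the lattice -/
@[reducible] noncomputable def latt (hO : OrdStmt) (hS : SupStmt) (hI : InfStmt) (I J : Type)
    (w : I → J → ℕ) : Lattice {x : El I J // Ok w x} where
  le x y := le x.1 y.1
  le_refl x := (hO I J).1 x.1
  le_trans x y z h h' := (hO I J).2.1 _ _ _ h h'
  le_antisymm x y h h' := Subtype.ext ((hO I J).2.2 _ _ h h')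
  sup x y := ⟨(hS I J w x.1 y.1 x.2 y.2).choose, (hS I J w x.1 y.1 x.2 y.2).choose_spec.1⟩
  le_sup_left x y := (hS I J w x.1 y.1 x.2 y.2).choose_spec.2.1
  le_sup_right x y := (hS I J w x.1 y.1 x.2 y.2).choose_spec.2.2.1
  sup_le x y z h h' := (hS I J w x.1 y.1 x.2 y.2).choose_spec.2.2.2 z.1 z.2 h h'
  inf x y := ⟨(hI I J w x.1 y.1 x.2 y.2).choose, (hI I J w x.1 y.1 x.2 y.2).choose_spec.1⟩
  inf_le_left x y := (hI I J w x.1 y.1 x.2 y.2).choose_spec.2.1
  inf_le_right x y := (hI I J w x.1 y.1 x.2 y.2).choose_spec.2.2.1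
  le_inf x y z h h' := (hI I J w y.1 z.1 y.2 z.2).choose_spec.2.2.2 x.1 x.2 h h'

theorem mk_pre {I J : Type} {w : I → J → ℕ} (T : Set (El I J)) (hT : ∀ t ∈ T, Ok w t) :
    Cardinal.mk ((Subtype.val ⁻¹' T : Set {x : El I J // Ok w x})) = Cardinal.mk T := by
  apply Cardinal.mk_preimage_of_injective_of_subset_range
  · exact Subtype.val_injective
  · intro t ht
    exact ⟨⟨t, hT t ht⟩, rfl⟩

theorem pkg (hO : OrdStmt) (hS : SupStmt) (hI : InfStmt) (hC : IcfStmt) (hG : GapStmt)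
    (hcin : CinStmt) (hcof : CofStmt) (hcrd : CrdStmt) : PkgStmt := by
  classical
  intro I J w _ _
  have hfin : ∀ x y : {x : El I J // Ok w x},
      {z : {x : El I J // Ok w x} | le x.1 z.1 ∧ le z.1 y.1}.Finite := by
    intro x y
    have h1 := (hC I J w x.1 y.1).preimage (f := (Subtype.val : {x : El I J // Ok w x} → El I J))
      (Subtype.val_injective.injOn)
    refine h1.subset ?_
    intro z hz
    exact ⟨z.2, hz.1, hz.2⟩
  refine ⟨{x : El I J // Ok w x}, latt hO hS hI I J w,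
    fun i => ⟨El.low {i}, Finset.singleton_nonempty i⟩,
    fun j => ⟨El.top {j}, Finset.singleton_nonempty j⟩, ?_, ?_, ?_, ?_, ?_, ?_⟩
  · intro x y
    exact hfin x y
  · intro x y
    refine ⟨(hfin x y).toFinset.card, ?_⟩
    intro c hc _
    apply Finset.card_le_card
    intro z hz
    rw [Set.Finite.mem_toFinset]
    exact hc z hz
  · -- coinitiality
    obtain ⟨⟨T, hT1, hT2, hT3⟩, h2⟩ := hcin I J w
    apply le_antisymm
    · apply csInf_le'
      refine ⟨Subtype.val ⁻¹' T, ?_, ?_⟩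
      · intro x
        obtain ⟨t, ht, htx⟩ := hT2 x.1 x.2
        exact ⟨⟨t, hT1 t ht⟩, ht, htx⟩
      · rw [mk_pre T hT1, hT3]
    · apply le_csInf
      · refine ⟨_, Set.univ, ?_, rfl⟩
        intro x
        exact ⟨x, Set.mem_univ x, (hO I J).1 x.1⟩
      · rintro c ⟨S, hS1, rfl⟩
        have h3 := h2 (Subtype.val '' S) (by rintro t ⟨s, _, rfl⟩; exact s.2) (by
          intro x hx
          obtain ⟨s, hs, hsx⟩ := hS1 ⟨x, hx⟩
          exact ⟨s.1, ⟨s, hs, rfl⟩, hsx⟩)
        rw [Cardinal.mk_image_eq Subtype.val_injective] at h3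
        exact h3
  · -- cofinality
    obtain ⟨⟨T, hT1, hT2, hT3⟩, h2⟩ := hcof I J w
    apply le_antisymm
    · apply csInf_le'
      refine ⟨Subtype.val ⁻¹' T, ?_, ?_⟩
      · intro x
        obtain ⟨t, ht, htx⟩ := hT2 x.1 x.2
        exact ⟨⟨t, hT1 t ht⟩, ht, htx⟩
      · rw [mk_pre T hT1, hT3]
    · apply le_csInf
      · refine ⟨_, Set.univ, ?_, rfl⟩
        intro x
        exact ⟨x, Set.mem_univ x, (hO I J).1 x.1⟩
      · rintro c ⟨S, hS1, rfl⟩
        have h3 := h2 (Subtype.val '' S) (by rintro t ⟨s, _, rfl⟩; exact s.2) (by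
          intro x hx
          obtain ⟨s, hs, hsx⟩ := hS1 ⟨x, hx⟩
          exact ⟨s.1, ⟨s, hs, rfl⟩, hsx⟩)
        rw [Cardinal.mk_image_eq Subtype.val_injective] at h3
        exact h3
  · exact (Cardinal.mk_subtype_le _).trans (hcrd I J)
  · intro f hf i j
    have h1 := hG I J w (fun x => if h : Ok w x then f ⟨x, h⟩ else 0) (by
      intro x y hx hy hxy hne
      simp only [dif_pos hx, dif_pos hy]
      apply hf
      refine ⟨hxy, ?_⟩
      intro hyx
      exact hne ((hO I J).2.2 _ _ hxy hyx)) i j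
    have h2 : Ok w (El.top {j} : El I J) := Finset.singleton_nonempty j
    have h3 : Ok w (El.low {i} : El I J) := Finset.singleton_nonempty i
    simp only [dif_pos h2, dif_pos h3] at h1
    exact h1

end Pool.Agent.DFM.H64
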